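import Mathlib

set_option autoImplicit false

namespace Pool.Agent.Results.MP_1940b6_co.NoPolarity

/-! ### Definitions -/

/-- Two flags are adjacent: they differ in exactly one face. -/
def Adjacent {P : Type} (A B : Set P) : Prop :=
  ∃ a b, a ∈ A ∧ b ∉ A ∧ B = insert b (A \ {a})

/-- `P` with the rank function `rk` is an abstract polyhedron (abstract polytope of rank 3). The
flags are the maximal chains. -/
structure IsAbstractPolyhedron {P : Type} [PartialOrder P] (rk : P → ℤ) : Prop where
  /-- the rank function is strictly monotone -/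
  strictMono : StrictMono rk
  /-- the rank function is onto `{-1, 0, 1, 2, 3}` -/
  range : Set.range rk = {-1, 0, 1, 2, 3}
  /-- there is a (unique) least face, of rank -1 -/
  least : ∃ b : P, rk b = -1 ∧ ∀ x, b ≤ x
  /-- there is a (unique) greatest face, of rank 3 -/
  greatest : ∃ t : P, rk t = 3 ∧ ∀ x, x ≤ t
  /-- every flag has exactly five elements -/
  flags : ∀ C : Set P, IsMaxChain (· ≤ ·) C → C.ncard = 5
  /-- the diamond condition -/
  diamond : ∀ F G : P, F ≤ G → rk G = rk F + 2 →
    {H : P | F ≤ H ∧ H ≤ G ∧ rk H = rk F + 1}.ncard = 2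
  /-- strong flag-connectedness: any two flags `A`, `B` are joined by a sequence of flags, each
  containing `A ∩ B`, in which consecutive flags are adjacent -/
  connected : ∀ A B : Set P, IsMaxChain (· ≤ ·) A → IsMaxChain (· ≤ ·) B →
    Relation.ReflTransGen (fun C D => IsMaxChain (· ≤ ·) C ∧ IsMaxChain (· ≤ ·) D ∧
      A ∩ B ⊆ C ∧ A ∩ B ⊆ D ∧ Adjacent C D) A B

/-- Every 2-face is a `p`-gon (it has `p` vertices and `p` edges) and every vertex-figure is a
`q`-gon (every vertex lies on `q` edges and on `q` 2-faces). -/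
def IsEquivelar {P : Type} [PartialOrder P] (rk : P → ℤ) (p q : ℕ) : Prop :=
  (∀ F, rk F = 2 → {v | rk v = 0 ∧ v ≤ F}.ncard = p ∧ {e | rk e = 1 ∧ e ≤ F}.ncard = p) ∧
  (∀ v, rk v = 0 → {e | rk e = 1 ∧ v ≤ e}.ncard = q ∧ {F | rk F = 2 ∧ v ≤ F}.ncard = q)

/-- The automorphism group is transitive on the faces of each rank. -/
def IsFullyTransitive {P : Type} [PartialOrder P] (rk : P → ℤ) : Prop :=
  ∀ x y : P, rk x = rk y → ∃ α : P ≃o P, α x = y

/-- A duality: an order-reversing bijection of `P` onto itself. -/
def IsDuality {P : Type} [PartialOrder P] (δ : P ≃ P) : Prop :=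
  ∀ F G : P, F ≤ G ↔ δ G ≤ δ F

/-! ### The example -/

/-- Points of the affine plane over the field with three elements. -/
abbrev Pt : Type := Fin 3 × Fin 3

/-- The faces of the example: vertices and 2-faces are labelled by the nine points of the affine
plane over `F₃`, the 36 edges are labelled by a point and two signs. -/
inductive Elt : Type
  | bot : Elt
  | vertex : Pt → Elt
  | edge : Pt → Bool → Bool → Elt
  | face : Pt → Elt
  | top : Elt
  deriving DecidableEq, Fintype

/-- the two axis directions -/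
def axis (i : Bool) : Pt := if i then (0, 1) else (1, 0)

/-- the two diagonal directions -/
def diag (j : Bool) : Pt := if j then (1, 2) else (1, 1)

/-- The edge `(m, i, j)` joins the vertices `m ± axis i` and lies on the 2-faces `m ± diag j`;
the vertex `a` lies on the 2-face `f` iff `a ≠ f`. -/
def leB : Elt → Elt → Bool
  | Elt.bot, _ => true
  | _, Elt.top => true
  | Elt.vertex a, Elt.vertex b => a = b
  | Elt.vertex a, Elt.edge m i _ => a = m + axis i || a = m - axis i
  | Elt.vertex a, Elt.face f => a ≠ f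
  | Elt.edge m i j, Elt.edge m' i' j' => m = m' && i = i' && j = j'
  | Elt.edge m _ j, Elt.face f => f = m + diag j || f = m - diag j
  | Elt.face a, Elt.face b => a = b
  | _, _ => false

def rk : Elt → ℤ
  | Elt.bot => -1
  | Elt.vertex _ => 0
  | Elt.edge _ _ _ => 1
  | Elt.face _ => 2
  | Elt.top => 3

theorem vef : ∀ (m : Pt) (i j : Bool) (a f : Pt), (a = m + axis i ∨ a = m - axis i) →
    (f = m + diag j ∨ f = m - diag j) → a ≠ f := by decide

theorem leB_trans (x y z : Elt) : leB x y = true → leB y z = true → leB x z = true := by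
  cases x with
  | bot => simp [leB]
  | top => cases y <;> simp [leB]
  | vertex a =>
    cases y with
    | bot => simp [leB]
    | top => cases z <;> simp [leB]
    | vertex b => 
      intro h
      have : a = b := by simpa [leB] using h
      subst this
      exact id
    | edge m i j =>
      cases z with
      | bot => simp [leB]
      | top => simp [leB]
      | vertex c => simp [leB]
      | edge m' i' j' =>
        intro h h'
        obtain ⟨⟨rfl, rfl⟩, rfl⟩ : (m = m' ∧ i = i') ∧ j = j' := by simpa [leB] using h'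
        exact h
      | face f =>
        intro h h'
        have h1 : a = m + axis i ∨ a = m - axis i := by simpa [leB] using h
        have h2 : f = m + diag j ∨ f = m - diag j := by simpa [leB] using h'
        simpa [leB] using vef m i j a f h1 h2
    | face f =>
      cases z with
      | bot => simp [leB]
      | top => simp [leB]
      | vertex c => simp [leB]
      | edge m' i' j' => simp [leB]
      | face g =>
        intro h h'
        have : f = g := by simpa [leB] using h'
        subst this
        exact h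
  | edge m i j =>
    cases y with
    | bot => simp [leB]
    | top => cases z <;> simp [leB]
    | vertex b => simp [leB]
    | edge m' i' j' =>
      intro h
      obtain ⟨⟨rfl, rfl⟩, rfl⟩ : (m = m' ∧ i = i') ∧ j = j' := by simpa [leB] using h
      exact id
    | face f =>
      cases z with
      | bot => simp [leB]
      | top => simp [leB]
      | vertex c => simp [leB]
      | edge m' i' j' => simp [leB]
      | face g =>
        intro h h'
        have : f = g := by simpa [leB] using h'
        subst this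
        exact h
  | face f =>
    cases y with
    | bot => simp [leB]
    | top => cases z <;> simp [leB]
    | vertex b => simp [leB]
    | edge m' i' j' => simp [leB]
    | face g =>
      intro h
      have : f = g := by simpa [leB] using h
      subst this
      exact id

theorem rk_lt (x y : Elt) : leB x y = true → x ≠ y → rk x < rk y := by
  cases x <;> cases y <;> simp [leB, rk]
  tauto

theorem leB_antisymm (x y : Elt) (h : leB x y = true) (h' : leB y x = true) : x = y := by
  by_contra hne
  have h1 := rk_lt x y h hne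
  have h2 := rk_lt y x h' (Ne.symm hne)
  omega

instance : PartialOrder Elt where
  le x y := leB x y = true
  le_refl x := by cases x <;> simp [leB]
  le_trans x y z := leB_trans x y z
  le_antisymm x y := leB_antisymm x y

instance : DecidableRel (α := Elt) (· ≤ ·) := fun x y => inferInstanceAs (Decidable (leB x y = true))

theorem le_def (x y : Elt) : x ≤ y ↔ leB x y = true := Iff.rfl

theorem strictMono_rk : StrictMono rk := fun x y h => rk_lt x y h.le h.ne

/-! ### Flags -/

/-- Labels of the flags: `(m, i, j, s, t)` stands for the flag with edge `(m, i, j)`, vertex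
`m + axis i` or `m - axis i` (according to `s`) and 2-face `m + diag j` or `m - diag j`
(according to `t`). -/
abbrev Fl : Type := Pt × Bool × Bool × Bool × Bool

def fv (x : Fl) : Pt := if x.2.2.2.1 then x.1 + axis x.2.1 else x.1 - axis x.2.1
def ff (x : Fl) : Pt := if x.2.2.2.2 then x.1 + diag x.2.2.1 else x.1 - diag x.2.2.1
def fe (x : Fl) : Pt × Bool × Bool := (x.1, x.2.1, x.2.2.1)

/-- the elements of a flag -/
def el (x : Fl) : Fin 3 → Elt
  | 0 => Elt.vertex (fv x)
  | 1 => Elt.edge x.1 x.2.1 x.2.2.1
  | 2 => Elt.face (ff x)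

/-- the flag with a given label -/
def S (x : Fl) : Set Elt := {Elt.bot, el x 0, el x 1, el x 2, Elt.top}

/-- the flag with edge `(m, i, j)`, signs `s`, `t`, and with vertex `v` -/
def mkv (v : Pt) (i j s t : Bool) : Fl := (if s then v - axis i else v + axis i, i, j, s, t)

/-- the adjacent flag with another vertex -/
def r0 (x : Fl) : Fl := (x.1, x.2.1, x.2.2.1, !x.2.2.2.1, x.2.2.2.2)

/-- the adjacent flag with another 2-face -/
def r2 (x : Fl) : Fl := (x.1, x.2.1, x.2.2.1, x.2.2.2.1, !x.2.2.2.2)

/-- the adjacent flag with another edge -/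
def r1 (x : Fl) : Fl :=
  let v := fv x
  let j := x.2.2.1
  let s := x.2.2.2.1
  let t := x.2.2.2.2
  if x.2.1 = false then
    if s = t then mkv v false (!j) (!s) (!t) else mkv v true j (xor t j) (!t)
  else
    if s = xor t j then mkv v true (!j) (!s) t else mkv v false j t (!t)

theorem r0_spec : ∀ x : Fl, fv (r0 x) ≠ fv x ∧ fe (r0 x) = fe x ∧ ff (r0 x) = ff x := by
  decide +kernel
theorem r1_spec : ∀ x : Fl, fv (r1 x) = fv x ∧ fe (r1 x) ≠ fe x ∧ ff (r1 x) = ff x := by
  decide +kernel
theorem r2_spec : ∀ x : Fl, fv (r2 x) = fv x ∧ fe (r2 x) = fe x ∧ ff (r2 x) ≠ ff x := by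
  decide +kernel

/-- the list of all labels -/
def allFl : List Fl :=
  [0, 1, 2].flatMap fun a => [0, 1, 2].flatMap fun b => [false, true].flatMap fun i =>
    [false, true].flatMap fun j => [false, true].flatMap fun s => [false, true].map fun t =>
      ((a, b), i, j, s, t)

theorem mem_allFl : ∀ x : Fl, x ∈ allFl := by decide +kernel

theorem forall₂_of_all {p : Fl → Fl → Bool} (h : (allFl.all fun x => allFl.all fun y => p x y) = true)
    (x y : Fl) : p x y = true := by
  rw [List.all_eq_true] at h
  exact List.all_eq_true.1 (h x (mem_allFl x)) y (mem_allFl y)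

/-- two flags with the same vertex and edge, etc. -/
theorem ve_spec (x y : Fl) (h : fv x = fv y) (h' : fe x = fe y) : y = x ∨ y = r2 x := by
  have := forall₂_of_all (p := fun x y => !(fv x == fv y) || !(fe x == fe y) || y == x || y == r2 x)
    (by decide +kernel) x y
  simpa [h, h'] using this
theorem ef_spec (x y : Fl) (h : fe x = fe y) (h' : ff x = ff y) : y = x ∨ y = r0 x := by
  have := forall₂_of_all (p := fun x y => !(fe x == fe y) || !(ff x == ff y) || y == x || y == r0 x)
    (by decide +kernel) x y
  simpa [h, h'] using this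
theorem vf_spec (x y : Fl) (h : fv x = fv y) (h' : ff x = ff y) : y = x ∨ y = r1 x := by
  have := forall₂_of_all (p := fun x y => !(fv x == fv y) || !(ff x == ff y) || y == x || y == r1 x)
    (by decide +kernel) x y
  simpa [h, h'] using this
theorem e_spec (x y : Fl) (h : fe x = fe y) : y = x ∨ y = r0 x ∨ y = r2 x ∨ y = r0 (r2 x) := by
  have := forall₂_of_all (p := fun x y => !(fe x == fe y) || y == x || y == r0 x || y == r2 x ||
    y == r0 (r2 x)) (by decide +kernel) x y
  simpa [h, or_assoc] using this

/-- alternate `n` times between two maps -/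
def alt (f g : Fl → Fl) : ℕ → Fl → Fl
  | 0, x => x
  | n + 1, x => alt g f n (f x)

/-- is `y` among `x`, `f x`, `g (f x)`, ... (`n` terms)? -/
def altMem (f g : Fl → Fl) (y : Fl) : ℕ → Fl → Bool
  | 0, _ => false
  | n + 1, x => y == x || altMem g f y n (f x)

theorem altMem_spec (f g : Fl → Fl) (y : Fl) (n : ℕ) (x : Fl) (h : altMem f g y n x = true) :
    ∃ k, y = alt f g k x := by
  induction n generalizing f g x with
  | zero => simp [altMem] at h
  | succ n ih =>
    simp only [altMem, Bool.or_eq_true, beq_iff_eq] at h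
    rcases h with h | h
    · exact ⟨0, h⟩
    · obtain ⟨k, hk⟩ := ih g f (f x) h
      exact ⟨k + 1, hk⟩

theorem v_spec (x y : Fl) (h : fv x = fv y) : ∃ n, y = alt r1 r2 n x := by
  have := forall₂_of_all (p := fun x y => !(fv x == fv y) || altMem r1 r2 y 16 x)
    (by decide +kernel) x y
  exact altMem_spec _ _ _ _ _ (by simpa [h] using this)
theorem f_spec (x y : Fl) (h : ff x = ff y) : ∃ n, y = alt r1 r0 n x := by
  have := forall₂_of_all (p := fun x y => !(ff x == ff y) || altMem r1 r0 y 16 x)
    (by decide +kernel) x y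
  exact altMem_spec _ _ _ _ _ (by simpa [h] using this)


/-! ### Chains -/

theorem el_lt (x : Fl) : Elt.bot < el x 0 ∧ el x 0 < el x 1 ∧ el x 1 < el x 2 ∧ el x 2 < Elt.top := by
  have h1 : fv x = x.1 + axis x.2.1 ∨ fv x = x.1 - axis x.2.1 := by
    unfold fv; split_ifs <;> simp
  have h2 : ff x = x.1 + diag x.2.2.1 ∨ ff x = x.1 - diag x.2.2.1 := by
    unfold ff; split_ifs <;> simp
  refine ⟨lt_of_le_of_ne ?_ (by simp [el]), lt_of_le_of_ne ?_ (by simp [el]),
    lt_of_le_of_ne ?_ (by simp [el]), lt_of_le_of_ne ?_ (by simp [el])⟩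
  · simp [le_def, leB]
  · simpa [le_def, leB, el] using h1
  · simpa [le_def, leB, el] using h2
  · simp [le_def, leB, el]

theorem S_chain (x : Fl) : IsChain (· ≤ ·) (S x) := by
  obtain ⟨h0, h1, h2, h3⟩ := el_lt x
  have h0 := h0.le
  have h1 := h1.le
  have h2 := h2.le
  have h3 := h3.le
  intro c hc d hd _
  simp only [S, Set.mem_insert_iff, Set.mem_singleton_iff] at hc hd
  have bl : ∀ y : Elt, Elt.bot ≤ y := fun y => by simp [le_def, leB]
  have tl : ∀ y : Elt, y ≤ Elt.top := fun y => by cases y <;> simp [le_def, leB]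
  rcases hc with rfl | rfl | rfl | rfl | rfl <;> rcases hd with rfl | rfl | rfl | rfl | rfl
  all_goals first
    | exact Or.inl (bl _)
    | exact Or.inr (bl _)
    | exact Or.inl (tl _)
    | exact Or.inr (tl _)
    | exact Or.inl le_rfl
    | exact Or.inl h1
    | exact Or.inl h2
    | exact Or.inl (h1.trans h2)
    | exact Or.inr h1
    | exact Or.inr h2
    | exact Or.inr (h1.trans h2)

theorem mem_S (x : Fl) (c : Elt) : c ∈ S x ↔ c = Elt.bot ∨ c = Elt.vertex (fv x) ∨
    c = Elt.edge x.1 x.2.1 x.2.2.1 ∨ c = Elt.face (ff x) ∨ c = Elt.top := Iff.rfl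

theorem vertex_mem_S (x : Fl) (a : Pt) : Elt.vertex a ∈ S x ↔ a = fv x := by
  simp [mem_S]
theorem edge_mem_S (x : Fl) (m : Pt) (i j : Bool) : Elt.edge m i j ∈ S x ↔ (m, i, j) = fe x := by
  simp [mem_S, fe]
theorem face_mem_S (x : Fl) (a : Pt) : Elt.face a ∈ S x ↔ a = ff x := by
  simp [mem_S]

theorem S_ncard (x : Fl) : (S x).ncard = 5 := by
  have : S x = (({Elt.bot, el x 0, el x 1, el x 2, Elt.top} : Finset Elt) : Set Elt) := by
    simp [S]
  rw [this, Set.ncard_coe_finset]
  simp [el]

theorem S_subset {x y : Fl} (h : S x ⊆ S y) : S x = S y := by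
  apply Set.eq_of_subset_of_ncard_le h _ (Set.toFinite _)
  rw [S_ncard, S_ncard]

theorem exists_flag_v (a : Pt) : ∃ x, fv x = a := by revert a; decide
theorem exists_flag_f (a : Pt) : ∃ x, ff x = a := by revert a; decide
theorem exists_flag_vf (a f : Pt) (h : a ≠ f) : ∃ x, fv x = a ∧ ff x = f := by
  revert a f; decide +kernel

/-- every chain is contained in a flag -/
theorem chain_subset (C : Set Elt) (hC : IsChain (· ≤ ·) C) : ∃ x : Fl, C ⊆ S x := by
  have cmp : ∀ c ∈ C, ∀ d ∈ C, c ≤ d ∨ d ≤ c := fun c hc d hd => by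
    by_cases h : c = d
    · exact Or.inl h.le
    · exact hC hc hd h
  have uv : ∀ a b, Elt.vertex a ∈ C → Elt.vertex b ∈ C → a = b := by
    intro a b ha hb
    rcases cmp _ ha _ hb with h | h
    · simpa [le_def, leB] using h
    · simpa [le_def, leB, eq_comm] using h
  have uf : ∀ a b, Elt.face a ∈ C → Elt.face b ∈ C → a = b := by
    intro a b ha hb
    rcases cmp _ ha _ hb with h | h
    · simpa [le_def, leB] using h
    · simpa [le_def, leB, eq_comm] using h
  have ue : ∀ m i j m' i' j', Elt.edge m i j ∈ C → Elt.edge m' i' j' ∈ C →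
      m = m' ∧ i = i' ∧ j = j' := by
    intro m i j m' i' j' ha hb
    rcases cmp _ ha _ hb with h | h
    · have h' : (m = m' ∧ i = i') ∧ j = j' := by simpa [le_def, leB] using h
      exact ⟨h'.1.1, h'.1.2, h'.2⟩
    · have h' : (m' = m ∧ i' = i) ∧ j' = j := by simpa [le_def, leB] using h
      exact ⟨h'.1.1.symm, h'.1.2.symm, h'.2.symm⟩
  have ve : ∀ a m i j, Elt.vertex a ∈ C → Elt.edge m i j ∈ C →
      (a = m + axis i ∨ a = m - axis i) := by
    intro a m i j ha hb
    rcases cmp _ ha _ hb with h | h
    · simpa [le_def, leB] using h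
    · simp [le_def, leB] at h
  have ef : ∀ m i j f, Elt.edge m i j ∈ C → Elt.face f ∈ C →
      (f = m + diag j ∨ f = m - diag j) := by
    intro m i j f ha hb
    rcases cmp _ ha _ hb with h | h
    · simpa [le_def, leB] using h
    · simp [le_def, leB] at h
  have vf : ∀ a f, Elt.vertex a ∈ C → Elt.face f ∈ C → a ≠ f := by
    intro a f ha hb
    rcases cmp _ ha _ hb with h | h
    · simpa [le_def, leB] using h
    · simp [le_def, leB] at h
  have key : ∀ x : Fl, (∀ a, Elt.vertex a ∈ C → a = fv x) →
      (∀ m i j, Elt.edge m i j ∈ C → m = x.1 ∧ i = x.2.1 ∧ j = x.2.2.1) →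
      (∀ f, Elt.face f ∈ C → f = ff x) → C ⊆ S x := by
    intro x h1 h2 h3 c hc
    rw [mem_S]
    cases c with
    | bot => simp
    | top => simp
    | vertex a => simp [h1 a hc]
    | edge m i j => simpa using h2 m i j hc
    | face f => simp [h3 f hc]
  by_cases he : ∃ m i j, Elt.edge m i j ∈ C
  · obtain ⟨m, i, j, he⟩ := he
    have hs : ∃ s : Bool, ∀ a, Elt.vertex a ∈ C → a = if s then m + axis i else m - axis i := by
      by_cases hv : ∃ a, Elt.vertex a ∈ C
      · obtain ⟨a, ha⟩ := hv
        rcases ve a m i j ha he with h | h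
        · exact ⟨true, fun b hb => by rw [uv b a hb ha, h]; simp⟩
        · exact ⟨false, fun b hb => by rw [uv b a hb ha, h]; simp⟩
      · exact ⟨true, fun b hb => absurd ⟨b, hb⟩ hv⟩
    have ht : ∃ t : Bool, ∀ a, Elt.face a ∈ C → a = if t then m + diag j else m - diag j := by
      by_cases hv : ∃ a, Elt.face a ∈ C
      · obtain ⟨a, ha⟩ := hv
        rcases ef m i j a he ha with h | h
        · exact ⟨true, fun b hb => by rw [uf b a hb ha, h]; simp⟩
        · exact ⟨false, fun b hb => by rw [uf b a hb ha, h]; simp⟩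
      · exact ⟨true, fun b hb => absurd ⟨b, hb⟩ hv⟩
    obtain ⟨s, hs⟩ := hs
    obtain ⟨t, ht⟩ := ht
    exact ⟨(m, i, j, s, t), key _ hs (fun m' i' j' h => ue _ _ _ _ _ _ h he) ht⟩
  · have he' : ∀ x : Fl, ∀ m i j, Elt.edge m i j ∈ C → m = x.1 ∧ i = x.2.1 ∧ j = x.2.2.1 :=
      fun x m i j h => absurd ⟨m, i, j, h⟩ he
    by_cases hv : ∃ a, Elt.vertex a ∈ C
    · obtain ⟨a, ha⟩ := hv
      by_cases hf : ∃ f, Elt.face f ∈ C
      · obtain ⟨f, hf⟩ := hf
        obtain ⟨x, h1, h2⟩ := exists_flag_vf a f (vf a f ha hf)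
        exact ⟨x, key x (fun b hb => by rw [h1, uv b a hb ha]) (he' x)
          (fun b hb => by rw [h2, uf b f hb hf])⟩
      · obtain ⟨x, h1⟩ := exists_flag_v a
        exact ⟨x, key x (fun b hb => by rw [h1, uv b a hb ha]) (he' x)
          (fun b hb => absurd ⟨b, hb⟩ hf)⟩
    · by_cases hf : ∃ f, Elt.face f ∈ C
      · obtain ⟨f, hf⟩ := hf
        obtain ⟨x, h2⟩ := exists_flag_f f
        exact ⟨x, key x (fun b hb => absurd ⟨b, hb⟩ hv) (he' x)
          (fun b hb => by rw [h2, uf b f hb hf])⟩
      · exact ⟨((0, 0), true, true, true, true), key _ (fun b hb => absurd ⟨b, hb⟩ hv) (he' _)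
          (fun b hb => absurd ⟨b, hb⟩ hf)⟩

theorem S_max (x : Fl) : IsMaxChain (· ≤ ·) (S x) := by
  refine ⟨S_chain x, fun C hC h => ?_⟩
  obtain ⟨y, hy⟩ := chain_subset C hC
  exact Set.Subset.antisymm h (by rw [S_subset (h.trans hy)]; exact hy)

theorem eq_S (C : Set Elt) (hC : IsMaxChain (· ≤ ·) C) : ∃ x, C = S x := by
  obtain ⟨x, hx⟩ := chain_subset C hC.1
  exact ⟨x, hC.2 (S_chain x) hx⟩

/-! ### Connectedness -/

/-- the relation in the definition of strong flag-connectedness -/
def Rel (K C D : Set Elt) : Prop :=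
  IsMaxChain (· ≤ ·) C ∧ IsMaxChain (· ≤ ·) D ∧ K ⊆ C ∧ K ⊆ D ∧ Adjacent C D

theorem adj_of {x y : Fl} (h : (fv x ≠ fv y ∧ fe x = fe y ∧ ff x = ff y) ∨
    (fv x = fv y ∧ fe x ≠ fe y ∧ ff x = ff y) ∨ (fv x = fv y ∧ fe x = fe y ∧ ff x ≠ ff y)) :
    Adjacent (S x) (S y) := by
  have hE : fe x = fe y → x.1 = y.1 ∧ x.2.1 = y.2.1 ∧ x.2.2.1 = y.2.2.1 := by
    intro h
    simpa [fe] using h
  rcases h with ⟨h1, h2, h3⟩ | ⟨h1, h2, h3⟩ | ⟨h1, h2, h3⟩
  · obtain ⟨e1, e2, e3⟩ := hE h2
    refine ⟨Elt.vertex (fv x), Elt.vertex (fv y), ?_, ?_, ?_⟩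
    · rw [vertex_mem_S]
    · rw [vertex_mem_S]; exact Ne.symm h1
    · ext c
      cases c with
      | bot => simp [mem_S]
      | top => simp [mem_S]
      | vertex a => simp [mem_S]
      | edge m i j => simp [mem_S, e1, e2, e3]
      | face f => simp [mem_S, h3]
  · refine ⟨Elt.edge x.1 x.2.1 x.2.2.1, Elt.edge y.1 y.2.1 y.2.2.1, ?_, ?_, ?_⟩
    · rw [edge_mem_S]; rfl
    · rw [edge_mem_S]; exact Ne.symm h2
    · ext c
      cases c with
      | bot => simp [mem_S]
      | top => simp [mem_S]
      | vertex a => simp [mem_S, h1]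
      | edge m i j => simp [mem_S]
      | face f => simp [mem_S, h3]
  · obtain ⟨e1, e2, e3⟩ := hE h2
    refine ⟨Elt.face (ff x), Elt.face (ff y), ?_, ?_, ?_⟩
    · rw [face_mem_S]
    · rw [face_mem_S]; exact Ne.symm h3
    · ext c
      cases c with
      | bot => simp [mem_S]
      | top => simp [mem_S]
      | vertex a => simp [mem_S, h1]
      | edge m i j => simp [mem_S, e1, e2, e3]
      | face f => simp [mem_S]

theorem adj0 (x : Fl) : Adjacent (S x) (S (r0 x)) :=
  adj_of (Or.inl ⟨(r0_spec x).1.symm, (r0_spec x).2.1.symm, (r0_spec x).2.2.symm⟩)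
theorem adj1 (x : Fl) : Adjacent (S x) (S (r1 x)) :=
  adj_of (Or.inr (Or.inl ⟨(r1_spec x).1.symm, (r1_spec x).2.1.symm, (r1_spec x).2.2.symm⟩))
theorem adj2 (x : Fl) : Adjacent (S x) (S (r2 x)) :=
  adj_of (Or.inr (Or.inr ⟨(r2_spec x).1.symm, (r2_spec x).2.1.symm, (r2_spec x).2.2.symm⟩))

theorem rel_of {K : Set Elt} {x y : Fl} (h : K ⊆ S x) (h' : K ⊆ S y) (ha : Adjacent (S x) (S y)) :
    Rel K (S x) (S y) := ⟨S_max x, S_max y, h, h', ha⟩

theorem conn_v (K : Set Elt) (x y : Fl) (h : fv x = fv y)
    (hK : ∀ c ∈ K, c = Elt.bot ∨ c = Elt.top ∨ c = Elt.vertex (fv x)) :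
    Relation.ReflTransGen (Rel K) (S x) (S y) := by
  obtain ⟨n, rfl⟩ := v_spec x y h
  have hsub : ∀ z, fv z = fv x → K ⊆ S z := by
    intro z hz c hc
    rw [mem_S]
    rcases hK c hc with h | h | h
    · exact Or.inl h
    · exact Or.inr (Or.inr (Or.inr (Or.inr h)))
    · rw [hz]; exact Or.inr (Or.inl h)
  have aux : ∀ n : ℕ, ∀ z : Fl, fv z = fv x →
      Relation.ReflTransGen (Rel K) (S z) (S (alt r1 r2 n z)) ∧
      Relation.ReflTransGen (Rel K) (S z) (S (alt r2 r1 n z)) := by
    intro n
    induction n with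
    | zero => intro z _; exact ⟨Relation.ReflTransGen.refl, Relation.ReflTransGen.refl⟩
    | succ n ih =>
      intro z hz
      have h1 : fv (r1 z) = fv x := (r1_spec z).1.trans hz
      have h2 : fv (r2 z) = fv x := (r2_spec z).1.trans hz
      exact ⟨Relation.ReflTransGen.head (rel_of (hsub z hz) (hsub _ h1) (adj1 z)) (ih _ h1).2,
        Relation.ReflTransGen.head (rel_of (hsub z hz) (hsub _ h2) (adj2 z)) (ih _ h2).1⟩
  exact (aux n x rfl).1

theorem conn_f (K : Set Elt) (x y : Fl) (h : ff x = ff y)
    (hK : ∀ c ∈ K, c = Elt.bot ∨ c = Elt.top ∨ c = Elt.face (ff x)) :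
    Relation.ReflTransGen (Rel K) (S x) (S y) := by
  obtain ⟨n, rfl⟩ := f_spec x y h
  have hsub : ∀ z, ff z = ff x → K ⊆ S z := by
    intro z hz c hc
    rw [mem_S]
    rcases hK c hc with h | h | h
    · exact Or.inl h
    · exact Or.inr (Or.inr (Or.inr (Or.inr h)))
    · rw [hz]; exact Or.inr (Or.inr (Or.inr (Or.inl h)))
  have aux : ∀ n : ℕ, ∀ z : Fl, ff z = ff x →
      Relation.ReflTransGen (Rel K) (S z) (S (alt r1 r0 n z)) ∧
      Relation.ReflTransGen (Rel K) (S z) (S (alt r0 r1 n z)) := by
    intro n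
    induction n with
    | zero => intro z _; exact ⟨Relation.ReflTransGen.refl, Relation.ReflTransGen.refl⟩
    | succ n ih =>
      intro z hz
      have h1 : ff (r1 z) = ff x := (r1_spec z).2.2.trans hz
      have h2 : ff (r0 z) = ff x := (r0_spec z).2.2.trans hz
      exact ⟨Relation.ReflTransGen.head (rel_of (hsub z hz) (hsub _ h1) (adj1 z)) (ih _ h1).2,
        Relation.ReflTransGen.head (rel_of (hsub z hz) (hsub _ h2) (adj0 z)) (ih _ h2).1⟩
  exact (aux n x rfl).1

theorem inter_spec (x y : Fl) (c : Elt) (hc : c ∈ S x ∩ S y) :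
    c = Elt.bot ∨ c = Elt.top ∨ (c = Elt.vertex (fv x) ∧ fv x = fv y) ∨
    (c = Elt.edge x.1 x.2.1 x.2.2.1 ∧ fe x = fe y) ∨ (c = Elt.face (ff x) ∧ ff x = ff y) := by
  obtain ⟨h1, h2⟩ := hc
  cases c with
  | bot => simp
  | top => simp
  | vertex a =>
    rw [vertex_mem_S] at h1 h2
    subst h1
    simp [h2]
  | edge m i j =>
    have e1 := (edge_mem_S x m i j).1 h1
    have e2 := (edge_mem_S y m i j).1 h2
    rw [mem_S] at h1
    simp only [reduceCtorEq, false_or, or_false] at h1
    rw [← e1, ← e2]
    simp [h1]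
  | face f =>
    rw [face_mem_S] at h1 h2
    subst h1
    simp [h2]

theorem exists_two : ∀ a b : Pt, ∃ c : Pt, c ≠ a ∧ c ≠ b := by decide

theorem conn (x y : Fl) : Relation.ReflTransGen (Rel (S x ∩ S y)) (S x) (S y) := by
  have hK := inter_spec x y
  have l1 : S x ∩ S y ⊆ S x := Set.inter_subset_left
  have l2 : S x ∩ S y ⊆ S y := Set.inter_subset_right
  by_cases h1 : fv x = fv y
  · by_cases h2 : fe x = fe y
    · rcases ve_spec x y h1 h2 with h | h
      · rw [h]
      · refine Relation.ReflTransGen.single (rel_of l1 l2 ?_)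
        rw [h]; exact adj2 x
    · by_cases h3 : ff x = ff y
      · rcases vf_spec x y h1 h3 with h | h
        · rw [h]
        · refine Relation.ReflTransGen.single (rel_of l1 l2 ?_)
          rw [h]; exact adj1 x
      · apply conn_v _ _ _ h1
        intro c hc
        rcases hK c hc with h | h | h | h | h
        · exact Or.inl h
        · exact Or.inr (Or.inl h)
        · exact Or.inr (Or.inr h.1)
        · exact absurd h.2 h2
        · exact absurd h.2 h3
  · by_cases h3 : ff x = ff y
    · by_cases h2 : fe x = fe y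
      · rcases ef_spec x y h2 h3 with h | h
        · rw [h]
        · refine Relation.ReflTransGen.single (rel_of l1 l2 ?_)
          rw [h]; exact adj0 x
      · apply conn_f _ _ _ h3
        intro c hc
        rcases hK c hc with h | h | h | h | h
        · exact Or.inl h
        · exact Or.inr (Or.inl h)
        · exact absurd h.2 h1
        · exact absurd h.2 h2
        · exact Or.inr (Or.inr h.1)
    · by_cases h2 : fe x = fe y
      · rcases e_spec x y h2 with h | h | h | h
        · rw [h]
        · exact absurd (by rw [h]; exact (r0_spec x).2.2.symm) h3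
        · exact absurd (by rw [h]; exact (r2_spec x).1.symm) h1
        · have hm : S x ∩ S y ⊆ S (r2 x) := by
            intro c hc
            rw [mem_S]
            rcases hK c hc with g | g | g | g | g
            · exact Or.inl g
            · exact Or.inr (Or.inr (Or.inr (Or.inr g)))
            · exact absurd g.2 h1
            · exact Or.inr (Or.inr (Or.inl g.1))
            · exact absurd g.2 h3
          refine Relation.ReflTransGen.head (rel_of l1 hm (adj2 x))
            (Relation.ReflTransGen.single (rel_of hm l2 ?_))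
          rw [h]; exact adj0 _
      · have hK' : ∀ c ∈ S x ∩ S y, c = Elt.bot ∨ c = Elt.top := by
          intro c hc
          rcases hK c hc with g | g | g | g | g
          · exact Or.inl g
          · exact Or.inr g
          · exact absurd g.2 h1
          · exact absurd g.2 h2
          · exact absurd g.2 h3
        obtain ⟨c, hc1, hc2⟩ := exists_two (ff x) (ff y)
        obtain ⟨z, z1, z2⟩ := exists_flag_vf c (ff x) hc1
        obtain ⟨w, w1, w2⟩ := exists_flag_vf c (ff y) hc2
        refine (conn_f _ x z z2.symm ?_).trans ((conn_v _ z w (z1.trans w1.symm) ?_).trans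
          (conn_f _ w y w2 ?_))
        all_goals
          intro d hd
          rcases hK' d hd with g | g
          · exact Or.inl g
          · exact Or.inr (Or.inl g)


/-! ### Counting -/

/-- the list of all elements -/
def allPt : List Pt := [0, 1, 2].flatMap fun a => [0, 1, 2].map fun b => (a, b)

def allElt : List Elt :=
  Elt.bot :: Elt.top :: (allPt.map Elt.vertex ++ allPt.map Elt.face ++
    allPt.flatMap fun m => [Elt.edge m false false, Elt.edge m false true, Elt.edge m true false,
      Elt.edge m true true])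

theorem nodup_allElt : allElt.Nodup := by decide +kernel

theorem mem_allPt : ∀ a : Pt, a ∈ allPt := by decide

theorem mem_allElt (x : Elt) : x ∈ allElt := by
  cases x with
  | bot => simp [allElt]
  | top => simp [allElt]
  | vertex a => simp [allElt, mem_allPt]
  | face a => simp [allElt, mem_allPt]
  | edge m i j =>
    simp only [allElt, List.mem_cons, List.mem_append, List.mem_map, List.mem_flatMap]
    refine Or.inr (Or.inr (Or.inr ⟨m, mem_allPt m, ?_⟩))
    cases i <;> cases j <;> simp

theorem ncard_eq (p : Elt → Bool) : {x | p x = true}.ncard = (allElt.filter p).length := by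
  have h1 : {x | p x = true} = ((allElt.filter p).toFinset : Set Elt) := by
    ext x
    simp [mem_allElt]
  rw [h1, Set.ncard_coe_finset, List.toFinset_card_of_nodup (nodup_allElt.filter p)]

theorem forallElt₂ {p : Elt → Elt → Bool}
    (h : (allElt.all fun x => allElt.all fun y => p x y) = true) (x y : Elt) : p x y = true := by
  rw [List.all_eq_true] at h
  exact List.all_eq_true.1 (h x (mem_allElt x)) y (mem_allElt y)

theorem forallElt {p : Elt → Bool} (h : (allElt.all p) = true) (x : Elt) : p x = true :=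
  List.all_eq_true.1 h x (mem_allElt x)

theorem diamond (F G : Elt) (h : F ≤ G) (h' : rk G = rk F + 2) :
    {H : Elt | F ≤ H ∧ H ≤ G ∧ rk H = rk F + 1}.ncard = 2 := by
  have h1 : {H : Elt | F ≤ H ∧ H ≤ G ∧ rk H = rk F + 1} =
      {H | (leB F H && leB H G && decide (rk H = rk F + 1)) = true} := by
    ext H
    simp [le_def, and_assoc]
  rw [h1, ncard_eq]
  have := forallElt₂ (p := fun F G => !(leB F G) || !(decide (rk G = rk F + 2)) ||
    (allElt.filter fun H => leB F H && leB H G && decide (rk H = rk F + 1)).length == 2)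
    (by decide +kernel) F G
  simpa [(le_def F G).1 h, h'] using this

theorem equivelar : IsEquivelar rk 8 8 := by
  constructor
  · intro F hF
    have h1 : {v : Elt | rk v = 0 ∧ v ≤ F} = {v | (decide (rk v = 0) && leB v F) = true} := by
      ext; simp [le_def]
    have h2 : {v : Elt | rk v = 1 ∧ v ≤ F} = {v | (decide (rk v = 1) && leB v F) = true} := by
      ext; simp [le_def]
    rw [h1, h2, ncard_eq, ncard_eq]
    have := forallElt (p := fun F => !(decide (rk F = 2)) ||
      ((allElt.filter fun v => decide (rk v = 0) && leB v F).length == 8 &&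
       (allElt.filter fun v => decide (rk v = 1) && leB v F).length == 8)) (by decide +kernel) F
    simpa [hF] using this
  · intro F hF
    have h1 : {v : Elt | rk v = 1 ∧ F ≤ v} = {v | (decide (rk v = 1) && leB F v) = true} := by
      ext; simp [le_def]
    have h2 : {v : Elt | rk v = 2 ∧ F ≤ v} = {v | (decide (rk v = 2) && leB F v) = true} := by
      ext; simp [le_def]
    rw [h1, h2, ncard_eq, ncard_eq]
    have := forallElt (p := fun F => !(decide (rk F = 0)) ||
      ((allElt.filter fun v => decide (rk v = 1) && leB F v).length == 8 &&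
       (allElt.filter fun v => decide (rk v = 2) && leB F v).length == 8)) (by decide +kernel) F
    simpa [hF] using this

theorem isPolyhedron : IsAbstractPolyhedron rk where
  strictMono := strictMono_rk
  range := by
    ext k
    simp only [Set.mem_range, Set.mem_insert_iff, Set.mem_singleton_iff]
    constructor
    · rintro ⟨x, rfl⟩
      cases x <;> simp [rk]
    · rintro (rfl | rfl | rfl | rfl | rfl)
      · exact ⟨Elt.bot, rfl⟩
      · exact ⟨Elt.vertex (0, 0), rfl⟩
      · exact ⟨Elt.edge (0, 0) true true, rfl⟩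
      · exact ⟨Elt.face (0, 0), rfl⟩
      · exact ⟨Elt.top, rfl⟩
  least := ⟨Elt.bot, rfl, fun y => by simp [le_def, leB]⟩
  greatest := ⟨Elt.top, rfl, fun y => by cases y <;> simp [le_def, leB]⟩
  flags := by
    intro C hC
    obtain ⟨x, rfl⟩ := eq_S C hC
    exact S_ncard x
  diamond := diamond
  connected := by
    intro A B hA hB
    obtain ⟨x, rfl⟩ := eq_S A hA
    obtain ⟨y, rfl⟩ := eq_S B hB
    exact conn x y

/-! ### Symmetries -/

/-- a linear map: exchange the coordinates if `sw`, then change the sign of the second one if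
`ng` -/
def lin (sw ng : Bool) (p : Pt) : Pt :=
  let q : Pt := if sw then (p.2, p.1) else p
  if ng then (q.1, -q.2) else q

/-- an automorphism -/
def aut (c : Pt) (sw ng : Bool) : Elt → Elt
  | Elt.bot => Elt.bot
  | Elt.vertex a => Elt.vertex (lin sw ng a + c)
  | Elt.edge m i j => Elt.edge (lin sw ng m + c) (xor i sw) (xor j ng)
  | Elt.face a => Elt.face (lin sw ng a + c)
  | Elt.top => Elt.top

theorem aut_check : (allPt.all fun c => [false, true].all fun sw =>
    [false, true].all fun ng => allElt.all fun x => allElt.all fun y =>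
      leB (aut c sw ng x) (aut c sw ng y) == leB x y) = true := by decide +kernel

theorem aut_le (c : Pt) (sw ng : Bool) (x y : Elt) :
    leB (aut c sw ng x) (aut c sw ng y) = leB x y := by
  have h1 := List.all_eq_true.1 aut_check c (mem_allPt c)
  have h2 := List.all_eq_true.1 h1 sw (by cases sw <;> simp)
  have h3 := List.all_eq_true.1 h2 ng (by cases ng <;> simp)
  simpa using forallElt₂ h3 x y

noncomputable def autIso (c : Pt) (sw ng : Bool) : Elt ≃o Elt where
  toEquiv := Equiv.ofBijective (aut c sw ng) (by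
    rw [← Finite.injective_iff_bijective]
    intro x y h
    apply le_antisymm
    · rw [le_def, ← aut_le c sw ng, h]
      exact le_refl (aut c sw ng y)
    · rw [le_def, ← aut_le c sw ng, h]
      exact le_refl (aut c sw ng y))
  map_rel_iff' := by
    intro x y
    simp only [Equiv.ofBijective_apply, le_def, aut_le]

theorem fullyTransitive : IsFullyTransitive rk := by
  intro x y hxy
  have h0 : ∀ a : Pt, lin false false a = a := fun a => by simp [lin]
  cases x with
  | bot =>
    cases y <;> simp [rk] at hxy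
    exact ⟨autIso 0 false false, rfl⟩
  | top =>
    cases y <;> simp [rk] at hxy
    exact ⟨autIso 0 false false, rfl⟩
  | vertex a =>
    cases y with
    | vertex b => exact ⟨autIso (b - a) false false, by
        change Elt.vertex (lin false false a + (b - a)) = _
        rw [h0, add_sub_cancel]⟩
    | _ => simp [rk] at hxy
  | face a =>
    cases y with
    | face b => exact ⟨autIso (b - a) false false, by
        change Elt.face (lin false false a + (b - a)) = _
        rw [h0, add_sub_cancel]⟩
    | _ => simp [rk] at hxy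
  | edge m i j =>
    cases y with
    | edge m' i' j' => exact ⟨autIso (m' - lin (xor i i') (xor j j') m) (xor i i') (xor j j'), by
        change Elt.edge _ _ _ = _
        rw [add_sub_cancel]
        cases i <;> cases i' <;> cases j <;> cases j' <;> rfl⟩
    | _ => simp [rk] at hxy

/-- the linear map with matrix `(1 1; 1 -1)` -/
def dl (p : Pt) : Pt := (p.1 + p.2, p.1 - p.2)

/-- a duality -/
def dual : Elt → Elt
  | Elt.bot => Elt.top
  | Elt.vertex a => Elt.face (dl a)
  | Elt.edge m i j => Elt.edge (dl m) j i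
  | Elt.face a => Elt.vertex (dl a)
  | Elt.top => Elt.bot

theorem dual_le (x y : Elt) : leB x y = leB (dual y) (dual x) := by
  simpa using forallElt₂ (p := fun x y => leB x y == leB (dual y) (dual x)) (by decide +kernel) x y

theorem selfDual : ∃ δ : Elt ≃ Elt, IsDuality δ := by
  refine ⟨Equiv.ofBijective dual ?_, ?_⟩
  · rw [← Finite.injective_iff_bijective]
    intro x y h
    apply le_antisymm
    · rw [le_def, dual_le, h]
      exact le_refl (dual y)
    · rw [le_def, dual_le, h]
      exact le_refl (dual y)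
  · intro x y
    simp only [Equiv.ofBijective_apply, le_def]
    rw [dual_le]

/-! ### No polarity -/

theorem adj_xor : ∀ a b : Pt, a ≠ b →
    ((∃ m i j, leB (Elt.vertex a) (Elt.edge m i j) = true ∧ leB (Elt.vertex b) (Elt.edge m i j) = true) ↔
     ¬ (∃ m i j, leB (Elt.edge m i j) (Elt.face a) = true ∧ leB (Elt.edge m i j) (Elt.face b) = true)) := by
  decide +kernel

theorem noPolarity (δ : Elt ≃ Elt) (hδ : IsDuality δ) : ∃ x, δ (δ x) ≠ x := by
  by_contra hcon
  push Not at hcon
  have hlt : ∀ x y : Elt, x < y → δ y < δ x := by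
    intro x y h
    exact lt_of_le_of_ne ((hδ x y).1 h.le) (fun e => h.ne (δ.injective e).symm)
  have hrk : ∀ x : Fl, rk (δ (el x 0)) = 2 ∧ rk (δ (el x 1)) = 1 ∧ rk (δ (el x 2)) = 0 := by
    intro x
    obtain ⟨h0, h1, h2, h3⟩ := el_lt x
    have g0 := strictMono_rk (hlt _ _ h0)
    have g1 := strictMono_rk (hlt _ _ h1)
    have g2 := strictMono_rk (hlt _ _ h2)
    have g3 := strictMono_rk (hlt _ _ h3)
    have b1 : ∀ y : Elt, rk y ≤ 3 := fun y => by cases y <;> simp [rk]
    have b2 : ∀ y : Elt, -1 ≤ rk y := fun y => by cases y <;> simp [rk]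
    have c1 := b1 (δ Elt.bot)
    have c2 := b2 (δ Elt.top)
    refine ⟨by omega, by omega, by omega⟩
  have hv : ∀ a : Pt, ∃ b, δ (Elt.vertex a) = Elt.face b := by
    intro a
    obtain ⟨x, hx⟩ := exists_flag_v a
    have h := (hrk x).1
    simp only [el, hx] at h
    cases hd : δ (Elt.vertex a) with
    | face b => exact ⟨b, rfl⟩
    | _ => rw [hd] at h; simp [rk] at h
  have hf : ∀ a : Pt, ∃ b, δ (Elt.face a) = Elt.vertex b := by
    intro a
    obtain ⟨x, hx⟩ := exists_flag_f a
    have h := (hrk x).2.2
    simp only [el, hx] at h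
    cases hd : δ (Elt.face a) with
    | vertex b => exact ⟨b, rfl⟩
    | _ => rw [hd] at h; simp [rk] at h
  have he : ∀ (m : Pt) (i j : Bool), ∃ m' i' j', δ (Elt.edge m i j) = Elt.edge m' i' j' := by
    intro m i j
    have h := (hrk (m, i, j, true, true)).2.1
    simp only [el] at h
    cases hd : δ (Elt.edge m i j) with
    | edge m' i' j' => exact ⟨m', i', j', rfl⟩
    | _ => rw [hd] at h; simp [rk] at h
  choose σ hσ using hv
  -- 2-faces go back with the same permutation
  have hτ : ∀ a, δ (Elt.face a) = Elt.vertex (σ a) := by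
    intro a
    obtain ⟨b, hb⟩ := hf a
    have h1 : ¬ (Elt.vertex a ≤ Elt.face a) := by simp [le_def, leB]
    rw [hδ, hb, hσ] at h1
    have : b = σ a := by simpa [le_def, leB] using h1
    rw [hb, this]
  have hinv : ∀ a, σ (σ a) = a := by
    intro a
    have := hcon (Elt.vertex a)
    rw [hσ, hτ] at this
    simpa using this
  -- vertices joined by an edge go to 2-faces with a common edge
  have h1 : ∀ a b, (∃ m i j, leB (Elt.vertex a) (Elt.edge m i j) = true ∧
      leB (Elt.vertex b) (Elt.edge m i j) = true) →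
      (∃ m i j, leB (Elt.edge m i j) (Elt.face (σ a)) = true ∧
        leB (Elt.edge m i j) (Elt.face (σ b)) = true) := by
    rintro a b ⟨m, i, j, ha, hb⟩
    obtain ⟨m', i', j', he⟩ := he m i j
    have ha' := (hδ _ _).1 ((le_def _ _).2 ha)
    have hb' := (hδ _ _).1 ((le_def _ _).2 hb)
    rw [he, hσ] at ha' hb'
    exact ⟨m', i', j', ha', hb'⟩
  have h2 : ∀ a b, (∃ m i j, leB (Elt.edge m i j) (Elt.face a) = true ∧
        leB (Elt.edge m i j) (Elt.face b) = true) →
      (∃ m i j, leB (Elt.vertex (σ a)) (Elt.edge m i j) = true ∧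
      leB (Elt.vertex (σ b)) (Elt.edge m i j) = true) := by
    rintro a b ⟨m, i, j, ha, hb⟩
    obtain ⟨m', i', j', he⟩ := he m i j
    have ha' := (hδ _ _).1 ((le_def _ _).2 ha)
    have hb' := (hδ _ _).1 ((le_def _ _).2 hb)
    rw [he, hτ] at ha' hb'
    exact ⟨m', i', j', ha', hb'⟩
  by_cases hid : ∀ a, σ a = a
  · have h3 : ∃ m i j, leB (Elt.vertex (1, 0)) (Elt.edge m i j) = true ∧
        leB (Elt.vertex (2, 0)) (Elt.edge m i j) = true :=
      ⟨(0, 0), false, false, by decide, by decide⟩
    have h4 := h1 _ _ h3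
    rw [hid, hid] at h4
    exact (adj_xor (1, 0) (2, 0) (by decide)).1 h3 h4
  · push Not at hid
    obtain ⟨a, ha⟩ := hid
    have hx := adj_xor a (σ a) (Ne.symm ha)
    by_cases h3 : ∃ m i j, leB (Elt.vertex a) (Elt.edge m i j) = true ∧
        leB (Elt.vertex (σ a)) (Elt.edge m i j) = true
    · have h4 := h1 _ _ h3
      rw [hinv] at h4
      obtain ⟨m, i, j, h5, h6⟩ := h4
      exact hx.1 h3 ⟨m, i, j, h6, h5⟩
    · have h4 := not_not.1 (fun h => h3 (hx.2 h))
      have h5 := h2 _ _ h4
      rw [hinv] at h5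
      obtain ⟨m, i, j, h5, h6⟩ := h5
      exact h3 ⟨m, i, j, h6, h5⟩

/-- **Main result.** There is a finite self-dual abstract polyhedron which is equivelar (of type
`{8, 8}`), even fully transitive, and none of whose dualities has period two. -/
theorem result : ∃ (P : Type) (_ : Finite P) (_ : PartialOrder P) (rk : P → ℤ),
    IsAbstractPolyhedron rk ∧ IsEquivelar rk 8 8 ∧ IsFullyTransitive rk ∧
    (∃ δ : P ≃ P, IsDuality δ) ∧ ∀ δ : P ≃ P, IsDuality δ → ∃ x, δ (δ x) ≠ x :=
  ⟨Elt, inferInstance, inferInstance, rk, isPolyhedron, equivelar, fullyTransitive, selfDual,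
    noPolarity⟩

end Pool.Agent.Results.MP_1940b6_co.NoPolarity
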